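import Mathlib
import Pool.Agent.H759R2.Kad.Props7

/-! Task G4: bicommutant theorem for two vectors. -/

open scoped ComplexOrder InnerProductSpace ComplexConjugate
open Finset

noncomputable section

namespace H759R2.Kad

universe u v

namespace G4

variable {K : Type u} [NormedAddCommGroup K] [InnerProductSpace ℂ K]

/-- the diagonal operator -/
def dg (T : K →L[ℂ] K) : HH (Fin 2) K →L[ℂ] HH (Fin 2) K :=
  opMat fun i j => if i = j then T else 0

theorem dg_apply (T : K →L[ℂ] K) (v : HH (Fin 2) K) (i : Fin 2) : dg T v i = T (v i) := by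
  rw [dg, opMat_apply, Finset.sum_eq_single i]
  · simp
  · intro j _ hj
    rw [if_neg (Ne.symm hj)]
    simp
  · simp

theorem dg_inner [CompleteSpace K] (T : K →L[ℂ] K) (v w : HH (Fin 2) K) :
    ⟪dg T v, w⟫_ℂ = ⟪v, dg (star T) w⟫_ℂ := by
  simp only [PiLp.inner_apply, dg_apply]
  refine Finset.sum_congr rfl fun i _ => ?_
  rw [ContinuousLinearMap.star_eq_adjoint, ContinuousLinearMap.adjoint_inner_right]

theorem commute_of_inv [CompleteSpace K] (S : Submodule ℂ (HH (Fin 2) K))
    [S.HasOrthogonalProjection]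
    (T : K →L[ℂ] K) (h1 : ∀ v ∈ S, dg T v ∈ S) (h2 : ∀ v ∈ S, dg (star T) v ∈ S)
    (v : HH (Fin 2) K) : S.starProjection (dg T v) = dg T (S.starProjection v) := by
  apply Submodule.eq_starProjection_of_mem_orthogonal
  · exact h1 _ (Submodule.starProjection_apply_mem S v)
  · rw [← map_sub, Submodule.mem_orthogonal]
    intro u hu
    have h3 := h2 u hu
    have h4 : v - S.starProjection v ∈ Sᗮ := Submodule.sub_starProjection_mem_orthogonal v
    rw [Submodule.mem_orthogonal] at h4
    have h5 := h4 _ h3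
    rw [dg_inner, star_star] at h5
    exact h5

/-- coordinate vectors -/
def sg (j : Fin 2) (x : K) : HH (Fin 2) K := WithLp.toLp 2 (Pi.single j x)

theorem sg_add (j : Fin 2) (x y : K) : sg j (x + y) = sg j x + sg j y := by
  ext i
  simp [sg, Pi.single_add]

theorem sg_smul (j : Fin 2) (c : ℂ) (x : K) : sg j (c • x) = c • sg j x := by
  ext i
  simp [sg, Pi.single_smul]

theorem norm_sg (j : Fin 2) (x : K) : ‖sg j x‖ = ‖x‖ := by
  simp [sg]

theorem sg_sum (v : HH (Fin 2) K) : v = ∑ j, sg j (v j) := by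
  ext i
  fin_cases i <;> simp [sg, Fin.sum_univ_two]

theorem dg_sg (T : K →L[ℂ] K) (j : Fin 2) (x : K) : dg T (sg j x) = sg j (T x) := by
  ext i
  rw [dg_apply]
  by_cases h : i = j
  · subst h
    simp [sg]
  · simp [sg, h]

theorem norm_coord_le (v : HH (Fin 2) K) (i : Fin 2) : ‖v i‖ ≤ ‖v‖ :=
  PiLp.norm_apply_le v i

/-- matrix coefficients -/
def cf (E : HH (Fin 2) K →L[ℂ] HH (Fin 2) K) (i j : Fin 2) : K →L[ℂ] K :=
  LinearMap.mkContinuous
    { toFun := fun x => E (sg j x) i
      map_add' := fun x y => by rw [sg_add, map_add]; rfl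
      map_smul' := fun c x => by rw [sg_smul, map_smul]; rfl } ‖E‖
    (fun x => (norm_coord_le _ i).trans ((E.le_opNorm _).trans (by rw [norm_sg])))

theorem cf_apply (E : HH (Fin 2) K →L[ℂ] HH (Fin 2) K) (i j : Fin 2) (x : K) :
    cf E i j x = E (sg j x) i := rfl

theorem cf_sum (E : HH (Fin 2) K →L[ℂ] HH (Fin 2) K) (v : HH (Fin 2) K) (i : Fin 2) :
    (E v) i = ∑ j, cf E i j (v j) := by
  conv_lhs => rw [sg_sum v, map_sum]
  simp [cf_apply]

end G4

theorem prove7_bic : G_bic.{u} := by
  intro A _ K _ _ _ π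
  set S' : Set (K →L[ℂ] K) := Set.centralizer (Set.range π) with hS'
  have hstar : ∀ t ∈ S', star t ∈ S' := by
    intro t ht
    rintro _ ⟨a, rfl⟩
    have h1 := ht (π (star a)) ⟨star a, rfl⟩
    have h2 := congrArg star h1
    rw [star_mul, star_mul, ← map_star, star_star] at h2
    exact h2.symm
  refine ⟨{ toStarSubalgebra := StarSubalgebra.centralizer ℂ S'
            centralizer_centralizer' := ?_ }, ?_, ?_⟩
  · change Set.centralizer (Set.centralizer (StarSubalgebra.centralizer ℂ S' :
      Set (K →L[ℂ] K))) = _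
    rw [StarSubalgebra.coe_centralizer]
    rw [Set.centralizer_centralizer_centralizer]
    rfl
  · intro a
    change π a ∈ StarSubalgebra.centralizer ℂ S'
    rw [StarSubalgebra.mem_centralizer_iff]
    intro g hg
    exact ⟨(hg _ ⟨a, rfl⟩).symm, (hstar g hg _ ⟨a, rfl⟩).symm⟩
  · intro x hx ζ₁ ζ₂ ε hε
    have hx' : ∀ g ∈ S', g * x = x * g := by
      intro g hg
      have hx1 : x ∈ StarSubalgebra.centralizer ℂ S' := hx
      rw [StarSubalgebra.mem_centralizer_iff] at hx1
      exact (hx1 g hg).1
    let z : HH (Fin 2) K := WithLp.toLp 2 ![ζ₁, ζ₂]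
    let L : A →ₗ[ℂ] HH (Fin 2) K :=
      { toFun := fun a => G4.dg (π a) z
        map_add' := fun a b => by
          ext i
          simp only [G4.dg_apply, map_add, PiLp.add_apply, add_apply]
        map_smul' := fun c a => by
          ext i
          simp only [G4.dg_apply, map_smul, PiLp.smul_apply, smul_apply,
            RingHom.id_apply] }
    let S : Submodule ℂ (HH (Fin 2) K) := (LinearMap.range L).topologicalClosure
    have hinv : ∀ a, ∀ v ∈ S, G4.dg (π a) v ∈ S := by
      intro a v hv
      have hm : Set.MapsTo (G4.dg (π a)) (LinearMap.range L : Set (HH (Fin 2) K))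
          (LinearMap.range L : Set (HH (Fin 2) K)) := by
        rintro _ ⟨b, rfl⟩
        refine ⟨a * b, ?_⟩
        ext i
        change G4.dg (π (a * b)) z i = G4.dg (π a) (G4.dg (π b) z) i
        rw [G4.dg_apply, G4.dg_apply, G4.dg_apply, map_mul]
        rfl
      exact hm.closure (G4.dg (π a)).continuous hv
    have hSc : IsClosed (S : Set (HH (Fin 2) K)) := Submodule.isClosed_topologicalClosure _
    have : CompleteSpace S := hSc.completeSpace_coe
    let E := S.starProjection
    have hcomm : ∀ a v, E (G4.dg (π a) v) = G4.dg (π a) (E v) := fun a v =>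
      G4.commute_of_inv S (π a) (hinv a) (by rw [← map_star]; exact hinv (star a)) v
    have hcf : ∀ i j, G4.cf E i j ∈ S' := by
      intro i j
      rintro _ ⟨a, rfl⟩
      ext v
      change π a (G4.cf E i j v) = G4.cf E i j (π a v)
      rw [G4.cf_apply, G4.cf_apply, ← G4.dg_sg, hcomm, G4.dg_apply]
    have hxE : ∀ v, E (G4.dg x v) = G4.dg x (E v) := by
      intro v
      ext i
      rw [G4.dg_apply, G4.cf_sum, G4.cf_sum, map_sum]
      refine Finset.sum_congr rfl fun j _ => ?_
      rw [G4.dg_apply]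
      have := congrArg (fun T : K →L[ℂ] K => T (v j)) (hx' _ (hcf i j))
      exact this
    have hz : z ∈ S := by
      apply Submodule.le_topologicalClosure
      refine ⟨1, ?_⟩
      change G4.dg (π 1) z = z
      ext i
      rw [G4.dg_apply, map_one]
      rfl
    have hxz : G4.dg x z ∈ S := by
      have h1 : E z = z := Submodule.starProjection_eq_self_iff.mpr hz
      have h2 := hxE z
      rw [h1] at h2
      rw [← h2]
      exact Submodule.starProjection_apply_mem S _
    obtain ⟨_, ⟨a, rfl⟩, ha⟩ := Metric.mem_closure_iff.mp hxz ε hε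
    refine ⟨a, ?_, ?_⟩
    · have h3 := G4.norm_coord_le (G4.dg x z - L a) 0
      rw [← dist_eq_norm] at h3
      have h4 : (G4.dg x z - L a) 0 = x ζ₁ - π a ζ₁ := by
        change G4.dg x z 0 - G4.dg (π a) z 0 = _
        rw [G4.dg_apply, G4.dg_apply]
        rfl
      rw [h4] at h3
      linarith
    · have h3 := G4.norm_coord_le (G4.dg x z - L a) 1
      rw [← dist_eq_norm] at h3
      have h4 : (G4.dg x z - L a) 1 = x ζ₂ - π a ζ₂ := by
        change G4.dg x z 1 - G4.dg (π a) z 1 = _
        rw [G4.dg_apply, G4.dg_apply]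
        rfl
      rw [h4] at h3
      linarith

end H759R2.Kad
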